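import Pool.Agent.Lib.H71N.Final

/-!
# MP_72b122_al: a normed vector lattice that is the direct sum of two closed ideals, not topologically

`E` is the vector lattice of all pairs `(x, y)` of finitely supported real sequences with the norm
`max (sup_n 2^(-n) |x_n|) (sup_n |x_n - y_n|)`. The lattice operations are continuous (at every
point they satisfy a Lipschitz estimate, but they are not uniformly continuous), `A = {y = 0}` and
`B = {x = 0}` are closed ideals with `E = A + B`, and the projection to `A` is not continuous: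
`(e_k, e_k)` tends to `0` while `(e_k, 0)` has norm `1`.
-/

namespace Pool.Agent.Results.MP_72b122_al.NormedVectorLattice

theorem result : ∃ (E : Type) (_ : NormedAddCommGroup E) (_ : NormedSpace ℝ E) (_ : Lattice E)
    (A B : Submodule ℝ E),
    (∀ x y w : E, x ≤ y → w + x ≤ w + y) ∧
    (∀ (r : ℝ) (x y : E), 0 ≤ r → x ≤ y → r • x ≤ r • y) ∧
    (∀ x y : E, (∀ n : ℕ, n • x ≤ y) → x ≤ 0) ∧
    Continuous (fun p : E × E => p.1 ⊔ p.2) ∧
    Continuous (fun p : E × E => p.1 ⊓ p.2) ∧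
    IsClosed (A : Set E) ∧ IsClosed (B : Set E) ∧
    (∀ x ∈ A, ∀ y ∈ A, x ⊔ y ∈ A ∧ x ⊓ y ∈ A) ∧
    (∀ x ∈ B, ∀ y ∈ B, x ⊔ y ∈ B ∧ x ⊓ y ∈ B) ∧
    (∀ x y : E, x ⊔ -x ≤ y ⊔ -y → y ∈ A → x ∈ A) ∧
    (∀ x y : E, x ⊔ -x ≤ y ⊔ -y → y ∈ B → x ∈ B) ∧
    Function.Bijective (fun p : A × B => (p.1 : E) + (p.2 : E)) ∧
    (∀ p q : A × B, p ≤ q ↔ (p.1 : E) + (p.2 : E) ≤ (q.1 : E) + (q.2 : E)) ∧
    ¬ IsHomeomorph (fun p : A × B => (p.1 : E) + (p.2 : E)) :=
  Pool.Agent.H71N.final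

end Pool.Agent.Results.MP_72b122_al.NormedVectorLattice
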